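import Pool.Agent.V11186.KO.Top

set_option autoImplicit false

/-!
# The weight of the representation kernel of a connected locally compact group

For every connected locally compact (Hausdorff) group `G`, the intersection `KO G` of the kernels
of all continuous homomorphisms `G → GL_n(ℂ)`, `n ∈ ℕ`, has weight at most `2 ^ ℵ₀`.
-/

namespace Pool.Agent.Results.MP_c19dcb_al.KernelWeight

open Set Topology Pointwise Pool.Agent.V11186.KO

universe u

/-- `KO(G)`: the intersection of the kernels of all continuous homomorphisms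
`ρ : G → GL_n(ℂ)`, `n = 0, 1, 2, …` -/
noncomputable def KO (G : Type u) [Group G] [TopologicalSpace G] : Subgroup G :=
  ⨅ (n : ℕ) (ρ : {ρ : G →* GL (Fin n) ℂ // Continuous ρ}), ρ.1.ker

/-- The weight of a topological space: the least cardinality of a base of the topology. -/
noncomputable def weight (X : Type u) [TopologicalSpace X] : Cardinal.{u} :=
  sInf {c | ∃ B : Set (Set X), TopologicalSpace.IsTopologicalBasis B ∧ Cardinal.mk B = c}

variable {G : Type u} [Group G] [TopologicalSpace G] [IsTopologicalGroup G]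

theorem mem_KO {g : G} : g ∈ KO G ↔ ∀ (n : ℕ) (ρ : G →* GL (Fin n) ℂ), Continuous ρ → ρ g = 1 := by
  simp [KO, Subgroup.mem_iInf, MonoidHom.mem_ker]

/-- If `H` is a closed normal subgroup with compact quotient, then `KO G ≤ H`. -/
theorem KO_le (H : Subgroup G) [H.Normal] (hH : IsClosed (H : Set G)) [CompactSpace (G ⧸ H)] :
    KO G ≤ H := by
  intro g hg
  by_contra hgH
  haveI : IsClosed (H : Set G) := hH
  have hne : (QuotientGroup.mk g : G ⧸ H) ≠ 1 := fun h =>
    hgH ((QuotientGroup.eq_one_iff g).1 h)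
  obtain ⟨n, ρ, hρ, hρg⟩ := Pool.Agent.TH264.Bridge.PWaux1.exists_rep_ne_one (G ⧸ H) _ hne
  let σ : G →* Matrix (Fin n) (Fin n) ℂ := ρ.comp (QuotientGroup.mk' H)
  have hσ : Continuous σ := hρ.comp QuotientGroup.continuous_mk
  have h1 := mem_KO.1 hg n σ.toHomUnits (by
    rw [Units.continuous_iff]
    refine ⟨hσ, ?_⟩
    have : (fun x : G => ((σ.toHomUnits x)⁻¹ : (Matrix (Fin n) (Fin n) ℂ)ˣ).val) =
        fun x : G => σ x⁻¹ := by
      funext x; rw [← map_inv]; rfl
    change Continuous (fun x : G => ((σ.toHomUnits x)⁻¹ : (Matrix (Fin n) (Fin n) ℂ)ˣ).val)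
    rw [this]
    exact hσ.comp continuous_inv)
  apply hρg
  have h2 := congrArg (fun u : (Matrix (Fin n) (Fin n) ℂ)ˣ => (u : Matrix (Fin n) (Fin n) ℂ)) h1
  exact h2

/-- The answer to Q1 is positive. -/
theorem result (G : Type u) [Group G] [TopologicalSpace G] [IsTopologicalGroup G] [T2Space G]
    [LocallyCompactSpace G] [ConnectedSpace G] :
    weight (KO G) ≤ Cardinal.continuum := by
  obtain ⟨N, hNn, hNc, D0, hD0, hdense⟩ := exists_compact_normal (G := G)
  choose c hc m hm hcm using exists_centralizer N hNc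
  let D1 : Set G := c '' D0
  have hD1 : D1.Countable := hD0.image _
  let H : Subgroup G := (Subgroup.closure D1).topologicalClosure
  have hHcl : IsClosed (H : Set G) := Subgroup.isClosed_topologicalClosure _
  have hHcent : H ≤ Subgroup.centralizer (N : Set G) := by
    refine Subgroup.topologicalClosure_minimal _ ?_ ?_
    · rw [Subgroup.closure_le]
      rintro _ ⟨d, -, rfl⟩
      exact hc d
    · have : ((Subgroup.centralizer (N : Set G) : Subgroup G) : Set G) =
        Set.centralizer (N : Set G) := rfl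
      rw [this]
      exact Set.isClosed_centralizer _
  have hD1H : ∀ d ∈ D0, c d ∈ H := fun d hd =>
    Subgroup.le_topologicalClosure _ (Subgroup.subset_closure ⟨d, hd, rfl⟩)
  have hfact : ∀ g : G, ∃ h ∈ H, ∃ k ∈ N, g = h * k := by
    intro g
    by_contra hcon
    push Not at hcon
    have hcl : IsClosed ((H : Set G) * (N : Set G)) := hHcl.mul_right_of_isCompact hNc
    obtain ⟨d, hd, hdO⟩ := hdense g ((H : Set G) * (N : Set G))ᶜ hcl.isOpen_compl (by
      rintro k hk ⟨h, hh, k', hk', he⟩
      refine hcon h hh (k' * k⁻¹) (N.mul_mem hk' (N.inv_mem hk)) ?_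
      rw [← mul_assoc]
      simp only at he
      rw [he, mul_inv_cancel_right])
    exact hdO ⟨c d, hD1H d hd, m d, hm d, (hcm d).symm⟩
  haveI hHn : H.Normal := by
    refine ⟨fun x hx g => ?_⟩
    obtain ⟨h, hh, k, hk, rfl⟩ := hfact g
    have h1 : k * x = x * k := (Subgroup.mem_centralizer_iff.1 (hHcent hx)) k hk
    have e : h * k * x * (h * k)⁻¹ = h * x * h⁻¹ := by
      calc h * k * x * (h * k)⁻¹ = h * (k * x) * k⁻¹ * h⁻¹ := by group
        _ = h * x * h⁻¹ := by rw [h1]; group
    rw [e]
    exact H.mul_mem (H.mul_mem hh hx) (H.inv_mem hh)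
  haveI : CompactSpace (G ⧸ H) := by
    refine ⟨?_⟩
    have h1 : (Set.univ : Set (G ⧸ H)) = (fun x : G => (QuotientGroup.mk x : G ⧸ H)) '' (N : Set G) := by
      symm
      rw [Set.eq_univ_iff_forall]
      intro q
      obtain ⟨g, rfl⟩ := QuotientGroup.mk_surjective q
      obtain ⟨h, hh, k, hk, rfl⟩ := hfact g
      refine ⟨k, hk, ?_⟩
      change (QuotientGroup.mk k : G ⧸ H) = QuotientGroup.mk (h * k)
      rw [QuotientGroup.eq]
      have := hHn.conj_mem h hh k⁻¹
      rw [inv_inv] at this
      rw [← mul_assoc]; exact this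
    rw [h1]
    exact hNc.image QuotientGroup.continuous_mk
  have hle : KO G ≤ H := KO_le H hHcl
  -- a base of `H`
  have hdH : Dense {x : H | (x : G) ∈ (Subgroup.closure D1 : Set G)} := by
    rw [Subtype.dense_iff]
    have h1 : (fun x : H => (x : G)) '' {x : H | (x : G) ∈ (Subgroup.closure D1 : Set G)} =
        (Subgroup.closure D1 : Set G) := by
      ext x
      constructor
      · rintro ⟨y, hy, rfl⟩; exact hy
      · intro hx
        exact ⟨⟨x, Subgroup.le_topologicalClosure _ hx⟩, hx, rfl⟩
    change (H : Set G) ⊆ closure ((fun x : H => (x : G)) '' _)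
    rw [h1]
    exact subset_of_eq (Subgroup.topologicalClosure_coe)
  have hcH : {x : H | (x : G) ∈ (Subgroup.closure D1 : Set G)}.Countable :=
    (countable_closure D1 hD1).preimage Subtype.val_injective
  obtain ⟨B, hB, hBc⟩ := exists_basis_of_separable _ hcH hdH
  have hind : IsInducing (Subgroup.inclusion hle) := by
    refine ⟨?_⟩
    rw [instTopologicalSpaceSubtype, instTopologicalSpaceSubtype, induced_compose]
    rfl
  have hB' := hB.isInducing hind
  have h1 : weight (KO G) ≤ Cardinal.mk (preimage (Subgroup.inclusion hle) '' B) :=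
    csInf_le' (show _ ∈ {c | ∃ B : Set (Set (KO G)), TopologicalSpace.IsTopologicalBasis B ∧
      Cardinal.mk B = c} from ⟨_, hB', rfl⟩)
  exact h1.trans (Cardinal.mk_image_le.trans hBc)

end Pool.Agent.Results.MP_c19dcb_al.KernelWeight
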